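import Pool.Agent.TH948.BD.Defs

set_option autoImplicit false
set_option linter.unusedSectionVars false

/-! The numerical condition holds for all large `n`. -/

namespace Pool.Agent.TH948.BD

open Finset
open scoped Classical
open Pool.Agent.TH965.Spread Pool.Agent.TH948.KK

namespace NumC

lemma ev_pow_log (A : ℝ) (B : ℕ) :
    ∀ᶠ n : ℕ in Filter.atTop, A * (Real.log n) ^ B ≤ (n : ℝ) := by
  have h := Real.isLittleO_pow_log_id_atTop (n := B)
  have h1 : ∀ᶠ x : ℝ in Filter.atTop, ‖(Real.log x) ^ B‖ ≤ (1 / (|A| + 1)) * ‖id x‖ :=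
    h.def (by positivity)
  have h2 := tendsto_natCast_atTop_atTop (R := ℝ) |>.eventually h1
  filter_upwards [h2, Filter.eventually_ge_atTop 1] with n hn hn1
  have hA : 0 < |A| + 1 := by positivity
  have h0 : (0 : ℝ) ≤ n := Nat.cast_nonneg n
  simp only [id, Real.norm_eq_abs] at hn
  rw [abs_of_nonneg h0] at hn
  have h3 : |A| * |(Real.log n) ^ B| ≤ n := by
    calc |A| * |(Real.log n) ^ B| ≤ |A| * (1 / (|A| + 1) * n) :=
          mul_le_mul_of_nonneg_left hn (abs_nonneg A)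
      _ = (|A| / (|A| + 1)) * n := by ring
      _ ≤ 1 * n := by
          apply mul_le_mul_of_nonneg_right _ h0
          rw [div_le_one hA]
          linarith
      _ = n := one_mul _
  calc A * (Real.log n) ^ B ≤ |A * (Real.log n) ^ B| := le_abs_self _
    _ = |A| * |(Real.log n) ^ B| := abs_mul _ _
    _ ≤ n := h3

end NumC

theorem numCond_ev (r : ℕ) (hr : 2 ≤ r) (C C₂ : ℝ) (hC : 0 < C) (hC₂ : 0 < C₂) :
    ∀ᶠ n : ℕ in Filter.atTop, ∀ p : ℝ, 0 ≤ p → p ≤ 1 →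
      p ^ (r.choose 2) ≤ C * Real.log n / (n : ℝ) ^ (r - 1) → NumCond n r ⌈C₂ * Real.log n⌉₊ p := by
  set e : ℕ := r.choose 2 with he
  have h2e : 2 * e = r * (r - 1) := by
    rw [he, Nat.choose_two_right]
    exact Nat.mul_div_cancel' (Nat.even_mul_pred_self r).two_dvd
  have he1 : 1 ≤ e := Nat.choose_pos hr
  have hlog : Filter.Tendsto (fun n : ℕ => Real.log n) Filter.atTop Filter.atTop :=
    Real.tendsto_log_atTop.comp tendsto_natCast_atTop_atTop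
  set a : ℝ := r * (C₂ + 1) + 1 with ha
  set A : ℝ := ((r : ℝ) ^ 2 * ((r : ℝ) * a ^ 2) ^ r) ^ (2 * e) * C ^ (r ^ 2) with hA
  set B : ℕ := 2 * r * (2 * e) + r ^ 2 with hB
  filter_upwards [NumC.ev_pow_log A B, Filter.eventually_ge_atTop 1,
    hlog.eventually_ge_atTop 1, hlog.eventually_ge_atTop (1 / C)] with n hn hn1 hl1 hlC
  intro p hp0 hp1 hp c m hc1 hcr hm
  have hr0 : (0 : ℝ) < r := by exact_mod_cast (by omega : 0 < r)
  have hn0 : (1 : ℝ) ≤ n := by exact_mod_cast hn1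
  set lg : ℝ := Real.log n with hlg
  set D : ℕ := ⌈C₂ * lg⌉₊ with hD
  have hlg0 : 0 < lg := by linarith
  have hClg : 1 ≤ C * lg := by
    rw [div_le_iff₀ hC] at hlC
    linarith
  have hDle : (D : ℝ) ≤ (C₂ + 1) * lg := by
    have h1 : (D : ℝ) < C₂ * lg + 1 := Nat.ceil_lt_add_one (by positivity)
    nlinarith
  set K : ℝ := (r : ℝ) * ((r : ℝ) * D + 1) ^ 2 with hK
  have hK0 : 0 ≤ K := by positivity
  have hKle : K ≤ ((r : ℝ) * a ^ 2) * lg ^ 2 := by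
    have h1 : (r : ℝ) * D + 1 ≤ a * lg := by
      have : (r : ℝ) * D ≤ r * ((C₂ + 1) * lg) := mul_le_mul_of_nonneg_left hDle hr0.le
      rw [ha]
      nlinarith
    have h2 : ((r : ℝ) * D + 1) ^ 2 ≤ (a * lg) ^ 2 := by
      apply pow_le_pow_left₀ (by positivity) h1
    calc K ≤ (r : ℝ) * (a * lg) ^ 2 := mul_le_mul_of_nonneg_left h2 hr0.le
      _ = ((r : ℝ) * a ^ 2) * lg ^ 2 := by ring
  set t : ℝ := C * lg / (n : ℝ) ^ (r - 1) with ht
  have ht0 : 0 ≤ t := by positivity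
  -- the quantity
  set X : ℝ := (r : ℝ) * ((r : ℝ) * (n : ℝ) ^ (c - 1) * K ^ r * p ^ m) with hX
  have hX0 : 0 ≤ X := by positivity
  have key : X ^ (2 * e) ≤ 1 := by
    have h1 : X ^ (2 * e) = ((r : ℝ) ^ 2 * K ^ r) ^ (2 * e) * ((n : ℝ) ^ ((c - 1) * (r * (r - 1)))) *
        (p ^ e) ^ (2 * m) := by
      rw [hX, ← h2e]
      have : (p ^ e) ^ (2 * m) = (p ^ m) ^ (2 * e) := by
        rw [← pow_mul, ← pow_mul]
        congr 1
        ring
      rw [this, pow_mul (n : ℝ) (c - 1) (2 * e)]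
      rw [← mul_pow, ← mul_pow]
      congr 1
      ring
    have hpe0 : 0 ≤ p ^ e := by positivity
    have hpe1 : p ^ e ≤ 1 := pow_le_one₀ hp0 hp1
    have h2 : (p ^ e) ^ (2 * m) ≤ t ^ (r * (c - 1) + 1) := by
      calc (p ^ e) ^ (2 * m) ≤ (p ^ e) ^ (r * (c - 1) + 1) := pow_le_pow_of_le_one hpe0 hpe1 hm
        _ ≤ t ^ (r * (c - 1) + 1) := pow_le_pow_left₀ hpe0 hp _
    have h3 : (n : ℝ) ^ ((c - 1) * (r * (r - 1))) * t ^ (r * (c - 1) + 1) =
        (C * lg) ^ (r * (c - 1) + 1) / (n : ℝ) ^ (r - 1) := by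
      rw [ht, div_pow, ← pow_mul]
      have hx : (r - 1) * (r * (c - 1) + 1) = (c - 1) * (r * (r - 1)) + (r - 1) := by ring
      rw [hx, pow_add]
      have hne : (n : ℝ) ^ ((c - 1) * (r * (r - 1))) ≠ 0 := by positivity
      have hne2 : (n : ℝ) ^ (r - 1) ≠ 0 := by positivity
      field_simp
      rw [pow_add]
    have h4 : (C * lg) ^ (r * (c - 1) + 1) ≤ (C * lg) ^ (r ^ 2) := by
      apply pow_le_pow_right₀ hClg
      obtain ⟨c', rfl⟩ : ∃ c', c = c' + 1 := ⟨c - 1, by omega⟩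
      have : c' + 2 ≤ r := by omega
      simp only [Nat.add_sub_cancel]
      nlinarith
    have h5 : (n : ℝ) ≤ (n : ℝ) ^ (r - 1) := by
      calc (n : ℝ) = (n : ℝ) ^ 1 := (pow_one _).symm
        _ ≤ (n : ℝ) ^ (r - 1) := pow_le_pow_right₀ hn0 (by omega)
    have hK2 : (r : ℝ) ^ 2 * K ^ r ≤ (r : ℝ) ^ 2 * (((r : ℝ) * a ^ 2) * lg ^ 2) ^ r := by
      apply mul_le_mul_of_nonneg_left _ (by positivity)
      exact pow_le_pow_left₀ hK0 hKle r
    have h6 : ((r : ℝ) ^ 2 * K ^ r) ^ (2 * e) * (C * lg) ^ (r ^ 2) ≤ (n : ℝ) := by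
      calc ((r : ℝ) ^ 2 * K ^ r) ^ (2 * e) * (C * lg) ^ (r ^ 2)
          ≤ ((r : ℝ) ^ 2 * (((r : ℝ) * a ^ 2) * lg ^ 2) ^ r) ^ (2 * e) * (C * lg) ^ (r ^ 2) := by
            apply mul_le_mul_of_nonneg_right _ (by positivity)
            exact pow_le_pow_left₀ (by positivity) hK2 _
        _ = A * lg ^ B := by
            rw [hA, hB, mul_pow (((r : ℝ) * a ^ 2)) (lg ^ 2) r, ← mul_assoc, mul_pow _ ((lg ^ 2) ^ r),
              mul_pow C lg, pow_add, ← pow_mul, ← pow_mul]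
            ring
        _ ≤ n := hn
    calc X ^ (2 * e) = ((r : ℝ) ^ 2 * K ^ r) ^ (2 * e) * ((n : ℝ) ^ ((c - 1) * (r * (r - 1)))) *
        (p ^ e) ^ (2 * m) := h1
      _ ≤ ((r : ℝ) ^ 2 * K ^ r) ^ (2 * e) * ((n : ℝ) ^ ((c - 1) * (r * (r - 1)))) *
        t ^ (r * (c - 1) + 1) := mul_le_mul_of_nonneg_left h2 (by positivity)
      _ = ((r : ℝ) ^ 2 * K ^ r) ^ (2 * e) * ((C * lg) ^ (r * (c - 1) + 1) / (n : ℝ) ^ (r - 1)) := by
          rw [mul_assoc, h3]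
      _ ≤ ((r : ℝ) ^ 2 * K ^ r) ^ (2 * e) * ((C * lg) ^ (r ^ 2) / (n : ℝ)) := by
          apply mul_le_mul_of_nonneg_left _ (by positivity)
          apply div_le_div₀ (by positivity) h4 (by positivity) h5
      _ = (((r : ℝ) ^ 2 * K ^ r) ^ (2 * e) * (C * lg) ^ (r ^ 2)) / (n : ℝ) := by ring
      _ ≤ 1 := by
          rw [div_le_one (by positivity)]
          exact h6
  have hX1 : X ≤ 1 := by
    by_contra hcon
    push Not at hcon
    have : 1 < X ^ (2 * e) := one_lt_pow₀ hcon (by omega)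
    linarith
  rw [le_div_iff₀ hr0]
  rw [hX] at hX1
  linarith

end Pool.Agent.TH948.BD
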